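import Pool.Agent.N893.TB.Stm

set_option autoImplicit false

/-! # TB/CORED: the bias term (helper26) -/

namespace Pool.Agent.N26.TB

open Filter Finset
open scoped Topology
open Pool.Agent.N893.TB

lemma hh_abs {T : ℕ → ℝ} (hT : ∀ k, T k = 0 ∨ T k = 1) (k : ℕ) : |hh T k| ≤ 1 / 2 := by
  induction k with
  | zero => rw [hh, abs_neg, abs_of_pos (by norm_num)]
  | succ k ih =>
    rw [hh]
    rcases hT k with h | h
    · rw [h, zero_mul, add_zero, abs_neg]; exact ih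
    · rw [h, one_mul]
      have : -hh T k + (hh T k + 1 / 2) = 1 / 2 := by ring
      rw [this, abs_of_pos (by norm_num)]

/-- the inequality behind the limit -/
lemma core (hB : tBETA) (hP : tPER) (hW : tWSUM) (hSh : tSHIFT) {J : ℕ} {a g T : ℕ → ℝ} {c : ℝ}
    (I : Inp J a g T c) : ∃ C M : ℝ, 0 ≤ M ∧ ∀ K : ℕ, 1 ≤ K →
      |∑ k ∈ range K, T k * hh T k - (∑ k ∈ range J, a k) / J / 4 * ∑ k ∈ range K, g k ^ 4| ≤
        C * (K : ℝ) ^ (3 / 4 : ℝ) + M * ∑ k ∈ range K, g k ^ 6 := by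
  have hJ : 1 ≤ J := I.odd.pos
  have ha1 : ∀ k, 0 ≤ a k ∧ a k ≤ 1 := fun k => by
    rcases I.a01 k with h | h <;> rw [h] <;> norm_num
  have hT1 : ∀ k, 0 ≤ T k ∧ T k ≤ 1 := fun k => by
    rcases I.T01 k with h | h <;> rw [h] <;> norm_num
  have hg := I.nonneg
  have g2a : ∀ k, g (k + 1) ^ 2 ≤ g k ^ 2 := fun k => pow_le_pow_left₀ (hg _) (I.anti k) 2
  have g2n : ∀ k, 0 ≤ g k ^ 2 := fun k => by positivity
  have g4a : ∀ k, g (k + 1) ^ 4 ≤ g k ^ 4 := fun k => pow_le_pow_left₀ (hg _) (I.anti k) 4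
  have g4n : ∀ k, 0 ≤ g k ^ 4 := fun k => by have := g2n k; positivity
  obtain ⟨β, M, hβp, hβ, hβM, hβs⟩ := hB J a I.odd I.per
  have hβs := hβs I.a01
  set c' : ℕ → ℝ := fun k => a k * β (k + 1) with hc'
  have hwp : ∀ k, β (k + J + 1) = β (k + 1) := fun k => by
    have : k + J + 1 = (k + 1) + J := by ring
    rw [this, hβp]
  have hc'p : ∀ k, c' (k + J) = c' k := fun k => by
    simp only [hc']
    rw [I.per, hwp]
  obtain ⟨β', M', -, hβ', hβ'M, -⟩ := hB J c' I.odd hc'p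
  have hM' : 0 ≤ M' := (abs_nonneg _).trans (hβ'M 0)
  -- the inputs
  obtain ⟨C1, h1⟩ := I.sumH 1 0 le_rfl
  obtain ⟨C2, h2⟩ := hSh a β (fun k => g k ^ 2) T M g2a g2n I.T01 hβ hβM
  obtain ⟨C3, h3⟩ := hW J (fun k => T k - a k * g k ^ 2) (fun k => β (k + 1)) (fun k => g k ^ 2) hJ
    hwp g2a g2n I.sumT
  obtain ⟨C4, h4⟩ := hP J c' (fun k => g k ^ 4) hJ hc'p g4a g4n
  obtain ⟨C5, h5⟩ := hW J (fun k => hh T k * (T k - a k * g k ^ 2)) (fun k => β (k + 1))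
    (fun k => g k ^ 2) hJ hwp g2a g2n I.sumH
  obtain ⟨C6, h6⟩ := hSh c' β' (fun k => g k ^ 4) T M' g4a g4n I.T01 hβ' hβ'M
  obtain ⟨C7, h7⟩ := hW J (fun k => T k - a k * g k ^ 2) (fun _ => 1) (fun k => g k ^ 4) hJ
    (fun _ => rfl) g4a g4n I.sumT
  refine ⟨|C1| + |C2| + (|C3| + |C4|) / 2 + |C5| + |C6| + M' * |C7|, M', hM', fun K hK => ?_⟩
  obtain ⟨p, hp⟩ : ∃ p, p = (K : ℝ) ^ (3 / 4 : ℝ) := ⟨_, rfl⟩
  have hp1 : 1 ≤ p := by
    rw [hp]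
    exact Real.one_le_rpow (by exact_mod_cast hK) (by norm_num)
  have i1 := h1 K
  have i2 := h2 K
  have i3 := h3 K
  have i4 := h4 K
  have i5 := h5 K
  have i6 := h6 K
  have i7 := h7 K
  rw [← hp] at i1 i3 i5 i7 ⊢
  simp only [Nat.mod_one, if_true] at i1
  -- identities
  have q1 : ∑ k ∈ range K, hh T k * (T k - a k * g k ^ 2) =
      ∑ k ∈ range K, T k * hh T k - ∑ k ∈ range K, g k ^ 2 * (a k * hh T k) := by
    rw [← sum_sub_distrib]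
    exact sum_congr rfl fun k _ => by ring
  have q2 : ∑ k ∈ range K, g k ^ 2 * (β (k + 1) * (T k * (hh T k + 1 / 2))) =
      ∑ k ∈ range K, g k ^ 2 * (β (k + 1) * (hh T k * (T k - a k * g k ^ 2))) +
      ∑ k ∈ range K, g k ^ 4 * (c' k * hh T k) +
      (∑ k ∈ range K, g k ^ 2 * (β (k + 1) * (T k - a k * g k ^ 2))) / 2 +
      (∑ k ∈ range K, g k ^ 4 * c' k) / 2 := by
    rw [sum_div, sum_div, ← sum_add_distrib, ← sum_add_distrib, ← sum_add_distrib]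
    refine sum_congr rfl fun k _ => ?_
    simp only [hc']
    ring
  have q3 : ∑ k ∈ range J, c' k = (∑ k ∈ range J, a k) / 2 := hβs
  have q4 : |∑ k ∈ range K, g k ^ 4 * (β' (k + 1) * (T k * (hh T k + 1 / 2)))| ≤
      M' * ∑ k ∈ range K, g k ^ 4 * T k := by
    refine (abs_sum_le_sum_abs _ _).trans ?_
    rw [mul_sum]
    refine sum_le_sum fun k _ => ?_
    have hh1 := abs_le.mp (hh_abs I.T01 k)
    have hx : 0 ≤ hh T k + 1 / 2 := by linarith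
    have hx1 : hh T k + 1 / 2 ≤ 1 := by linarith
    rw [abs_mul, abs_mul, abs_of_nonneg (g4n k), abs_of_nonneg (mul_nonneg (hT1 k).1 hx)]
    have e1 : T k * (hh T k + 1 / 2) ≤ T k := by
      have := mul_le_mul_of_nonneg_left hx1 (hT1 k).1
      rwa [mul_one] at this
    have e2 : |β' (k + 1)| * (T k * (hh T k + 1 / 2)) ≤ M' * T k :=
      mul_le_mul (hβ'M _) e1 (mul_nonneg (hT1 k).1 hx) hM'
    calc g k ^ 4 * (|β' (k + 1)| * (T k * (hh T k + 1 / 2))) ≤ g k ^ 4 * (M' * T k) :=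
          mul_le_mul_of_nonneg_left e2 (g4n k)
      _ = M' * (g k ^ 4 * T k) := by ring
  have q5 : ∑ k ∈ range K, g k ^ 4 * T k ≤
      ∑ k ∈ range K, g k ^ 4 * (1 * (T k - a k * g k ^ 2)) + ∑ k ∈ range K, g k ^ 6 := by
    rw [← sum_add_distrib]
    refine sum_le_sum fun k _ => ?_
    have e6 : 0 ≤ g k ^ 6 := by have := hg k; positivity
    have e7 : a k * g k ^ 6 ≤ g k ^ 6 := by
      have := mul_le_mul_of_nonneg_right (ha1 k).2 e6
      rwa [one_mul] at this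
    have e8 : g k ^ 4 * T k = g k ^ 4 * (1 * (T k - a k * g k ^ 2)) + a k * g k ^ 6 := by ring
    rw [e8]
    linarith
  obtain ⟨F, hF⟩ : ∃ F, F = ∑ k ∈ range K, T k * hh T k := ⟨_, rfl⟩
  obtain ⟨S1, hS1⟩ : ∃ S1, S1 = ∑ k ∈ range K, g k ^ 2 * (a k * hh T k) := ⟨_, rfl⟩
  obtain ⟨S2, hS2⟩ : ∃ S2, S2 = ∑ k ∈ range K, g k ^ 2 * (β (k + 1) * (T k * (hh T k + 1 / 2))) :=
    ⟨_, rfl⟩
  obtain ⟨Y1, hY1⟩ : ∃ Y1, Y1 = ∑ k ∈ range K, g k ^ 2 * (β (k + 1) *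
    (hh T k * (T k - a k * g k ^ 2))) := ⟨_, rfl⟩
  obtain ⟨Z, hZ⟩ : ∃ Z, Z = ∑ k ∈ range K, g k ^ 4 * (c' k * hh T k) := ⟨_, rfl⟩
  obtain ⟨X1, hX1⟩ : ∃ X1, X1 = ∑ k ∈ range K, g k ^ 2 * (β (k + 1) * (T k - a k * g k ^ 2)) :=
    ⟨_, rfl⟩
  obtain ⟨X2, hX2⟩ : ∃ X2, X2 = ∑ k ∈ range K, g k ^ 4 * c' k := ⟨_, rfl⟩
  obtain ⟨G4, hG4⟩ : ∃ G4, G4 = ∑ k ∈ range K, g k ^ 4 := ⟨_, rfl⟩
  obtain ⟨U, hU⟩ : ∃ U, U = ∑ k ∈ range K, g k ^ 4 * (β' (k + 1) * (T k * (hh T k + 1 / 2))) :=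
    ⟨_, rfl⟩
  obtain ⟨V1, hV1⟩ : ∃ V1, V1 = ∑ k ∈ range K, g k ^ 4 * (1 * (T k - a k * g k ^ 2)) := ⟨_, rfl⟩
  rw [q1, ← hF, ← hS1] at i1
  rw [← hS1, ← hS2] at i2
  rw [← hX1] at i3
  rw [q3, ← hX2, ← hG4] at i4
  rw [← hY1] at i5
  rw [← hZ, ← hU] at i6
  rw [← hV1] at i7 q5
  rw [← hS2, ← hY1, ← hZ, ← hX1, ← hX2] at q2
  rw [← hU] at q4
  rw [← hF, ← hG4]
  obtain ⟨A, hA⟩ : ∃ A, A = (∑ k ∈ range J, a k) := ⟨_, rfl⟩
  rw [← hA] at i4 ⊢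
  have hc1 : ∀ C : ℝ, C * p ≤ |C| * p := fun C =>
    mul_le_mul_of_nonneg_right (le_abs_self C) (by linarith)
  have hc2 : ∀ C : ℝ, C ≤ |C| * p := fun C => by
    have := mul_le_mul_of_nonneg_left hp1 (abs_nonneg C)
    linarith [le_abs_self C]
  have j1 := i1.trans (hc1 C1)
  have j2 := i2.trans (hc2 C2)
  have j3 := i3.trans (hc1 C3)
  have j4 := i4.trans (hc2 C4)
  have j5 := i5.trans (hc1 C5)
  have j6 := i6.trans (hc2 C6)
  have j7 := (le_abs_self V1).trans (i7.trans (hc1 C7))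
  have j8 : |U| ≤ M' * (|C7| * p + ∑ k ∈ range K, g k ^ 6) :=
    q4.trans (mul_le_mul_of_nonneg_left (q5.trans (by linarith)) hM')
  have hid : F - A / J / 4 * G4 = (F - S1) + (S1 - S2) + Y1 + (Z - U) + U + X1 / 2 +
      (X2 - A / 2 / J * G4) / 2 := by
    have : A / J / 4 * G4 = A / 2 / J * G4 / 2 := by ring
    rw [this]
    linarith
  rw [hid]
  have t : ∀ x y z w v u s : ℝ, |x + y + z + w + v + u + s| ≤ |x| + |y| + |z| + |w| + |v| + |u| + |s| := by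
    intro x y z w v u s
    calc |x + y + z + w + v + u + s| ≤ |x + y + z + w + v + u| + |s| := abs_add_le _ _
      _ ≤ |x + y + z + w + v| + |u| + |s| := by gcongr; exact abs_add_le _ _
      _ ≤ |x + y + z + w| + |v| + |u| + |s| := by gcongr; exact abs_add_le _ _
      _ ≤ |x + y + z| + |w| + |v| + |u| + |s| := by gcongr; exact abs_add_le _ _
      _ ≤ |x + y| + |z| + |w| + |v| + |u| + |s| := by gcongr; exact abs_add_le _ _
      _ ≤ |x| + |y| + |z| + |w| + |v| + |u| + |s| := by gcongr; exact abs_add_le _ _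
  refine (t _ _ _ _ _ _ _).trans ?_
  have k1 : |X1 / 2| = |X1| / 2 := by rw [abs_div, abs_of_pos (by norm_num : (0 : ℝ) < 2)]
  have k2 : |(X2 - A / 2 / J * G4) / 2| = |X2 - A / 2 / J * G4| / 2 := by
    rw [abs_div, abs_of_pos (by norm_num : (0 : ℝ) < 2)]
  rw [k1, k2]
  linarith

lemma log4 : Tendsto (fun K : ℕ => Real.log K ^ 4 * ((K : ℝ) ^ (3 / 4 : ℝ) / K)) atTop (𝓝 0) := by
  have h1 : Tendsto (fun x : ℝ => Real.log x ^ (4 : ℝ) / x ^ (1 / 4 : ℝ)) atTop (𝓝 0) :=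
    (isLittleO_log_rpow_rpow_atTop 4 (by norm_num)).tendsto_div_nhds_zero
  have h2 := h1.comp (tendsto_natCast_atTop_atTop (R := ℝ))
  refine h2.congr' ?_
  filter_upwards [eventually_ge_atTop 1] with K hK
  have hK0 : (0 : ℝ) < K := by exact_mod_cast hK
  simp only [Function.comp_apply]
  have e1 : Real.log K ^ (4 : ℝ) = Real.log K ^ 4 := by
    rw [← Real.rpow_natCast]; norm_num
  have e2 : (K : ℝ) ^ (3 / 4 : ℝ) / K = ((K : ℝ) ^ (1 / 4 : ℝ))⁻¹ := by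
    rw [← Real.rpow_neg hK0.le]
    have : (K : ℝ) ^ (3 / 4 : ℝ) / K = (K : ℝ) ^ (3 / 4 : ℝ) / (K : ℝ) ^ (1 : ℝ) := by rw [Real.rpow_one]
    rw [this, ← Real.rpow_sub hK0]
    norm_num
  rw [e1, e2, div_eq_mul_inv]

theorem main (hB : tBETA) (hP : tPER) (hS : tSUMLOG) (hW : tWSUM) (hSh : tSHIFT) : tCORED := by
  intro J a g T c I
  obtain ⟨C, M, hM, h⟩ := core hB hP hW hSh I
  have h4 := hS g c 4 I.lim
  have h6 := hS g c 6 I.lim
  have hlog : Tendsto (fun K : ℕ => Real.log (K : ℝ)) atTop atTop :=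
    Real.tendsto_log_atTop.comp tendsto_natCast_atTop_atTop
  have hlog2 : Tendsto (fun K : ℕ => (Real.log (K : ℝ) ^ 2)⁻¹) atTop (𝓝 0) :=
    ((tendsto_pow_atTop (by norm_num)).comp hlog).inv_tendsto_atTop
  have h6' : Tendsto (fun K : ℕ => (∑ k ∈ range K, g k ^ 6) * Real.log K ^ 6 / K *
      (Real.log (K : ℝ) ^ 2)⁻¹) atTop (𝓝 0) := by
    simpa using h6.mul hlog2
  have hbd : Tendsto (fun K : ℕ => |C| * (Real.log K ^ 4 * ((K : ℝ) ^ (3 / 4 : ℝ) / K)) +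
      M * ((∑ k ∈ range K, g k ^ 6) * Real.log K ^ 6 / K * (Real.log (K : ℝ) ^ 2)⁻¹)) atTop (𝓝 0) := by
    simpa using (log4.const_mul |C|).add (h6'.const_mul M)
  have herr : Tendsto (fun K : ℕ => (∑ k ∈ range K, T k * hh T k) * Real.log K ^ 4 / K -
      (∑ k ∈ range J, a k) / J / 4 * ((∑ k ∈ range K, g k ^ 4) * Real.log K ^ 4 / K)) atTop (𝓝 0) := by
    refine squeeze_zero_norm' ?_ hbd
    filter_upwards [eventually_ge_atTop 2] with K hK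
    have hK0 : (0 : ℝ) < K := by positivity
    have hL : 0 < Real.log K := Real.log_pos (by exact_mod_cast hK)
    have hi := h K (by omega)
    have e1 : (∑ k ∈ range K, T k * hh T k) * Real.log K ^ 4 / K -
      (∑ k ∈ range J, a k) / J / 4 * ((∑ k ∈ range K, g k ^ 4) * Real.log K ^ 4 / K) =
      (∑ k ∈ range K, T k * hh T k - (∑ k ∈ range J, a k) / J / 4 * ∑ k ∈ range K, g k ^ 4) *
        (Real.log K ^ 4 / K) := by ring
    rw [e1, Real.norm_eq_abs, abs_mul, abs_of_pos (by positivity : 0 < Real.log K ^ 4 / K)]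
    have e2 : C * (K : ℝ) ^ (3 / 4 : ℝ) ≤ |C| * (K : ℝ) ^ (3 / 4 : ℝ) :=
      mul_le_mul_of_nonneg_right (le_abs_self C) (by positivity)
    have e3 := mul_le_mul_of_nonneg_right (hi.trans (by linarith : _ ≤ |C| * (K : ℝ) ^ (3 / 4 : ℝ) +
      M * ∑ k ∈ range K, g k ^ 6)) (by positivity : 0 ≤ Real.log K ^ 4 / K)
    refine e3.trans (le_of_eq ?_)
    field_simp
  have hlim := (h4.const_mul ((∑ k ∈ range J, a k) / J / 4)).add herr
  have e4 : (∑ k ∈ range J, a k) / J / 4 * c ^ 4 + 0 = (∑ k ∈ range J, a k) / J * c ^ 4 / 4 := by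
    ring
  rw [e4] at hlim
  refine hlim.congr fun K => ?_
  ring

end Pool.Agent.N26.TB
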